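import Mathlib
import Pool.Agent.H171R3.FV.Real

set_option autoImplicit false

namespace Pool.Agent.Results.MP_a11f68_mp.ReducibleOffAverage

open H171FV

/-- Disproof of the irreducibility of planar continuous Fermi varieties away from the average
energy: there are a real-valued, real-analytic, `ℤ²`-periodic potential `V` on the plane and a real
energy `lam` different from the average of `V` over the unit cell, whose Fermi variety `F` (the same
set for solutions of every class `C^r`, `2 ≤ r ≤ ω`) is reducible modulo periodicity: its image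
in `(ℂ*)²` is a union of two analytic subsets of `(ℂ*)²` both different from it, and `F` is a union
of two `ℤ²`-invariant analytic subsets of `ℂ²` both different from `F`. -/
theorem result : ∃ (V : ℝ → ℝ → ℝ) (lam : ℝ) (F : Set (ℂ × ℂ)),
    AnalyticOnNhd ℝ (fun p : ℝ × ℝ => V p.1 p.2) Set.univ ∧
    (∀ (m n : ℤ) (x y : ℝ), V (x + m) (y + n) = V x y) ∧
    lam ≠ ∫ x in (0 : ℝ)..1, ∫ y in (0 : ℝ)..1, V x y ∧
    (∀ r : WithTop ℕ∞, 2 ≤ r → fermi r (fun x y => (V x y : ℂ)) lam = F) ∧
    Reducible torusC (quasi '' F) ∧ ReducibleInvariant F :=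
  main

end Pool.Agent.Results.MP_a11f68_mp.ReducibleOffAverage
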